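import Pool.Agent.X147.BikeE

/-!
# Rotation number of closed rear bicycle tracks over convex front tracks (MP_b4625f_gt, Q1)

For a simple closed front track bounding a strictly convex region, oriented counterclockwise, every
closed rear track has rotation number one.
-/

namespace Pool.Agent.Results.MP_b4625f_gt.RotationOne

open Real Set

/-- The front track `t ↦ (X t, Y t)`: a regular `L`-periodic `C²` curve, simple, bounding a
strictly convex compact region. -/
structure ConvexFront (X Y : ℝ → ℝ) (L : ℝ) : Prop where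
  period_pos : 0 < L
  smooth_X : ContDiff ℝ 2 X
  smooth_Y : ContDiff ℝ 2 Y
  periodic_X : ∀ t, X (t + L) = X t
  periodic_Y : ∀ t, Y (t + L) = Y t
  regular : ∀ t, deriv X t ≠ 0 ∨ deriv Y t ≠ 0
  simple : Set.InjOn (fun t => (X t, Y t)) (Set.Ico 0 L)
  convex : ∃ K : Set (ℝ × ℝ), IsCompact K ∧ StrictConvex ℝ K ∧ (interior K).Nonempty ∧
    frontier K = Set.range (fun t => (X t, Y t))

/-- Counterclockwise orientation: the signed area enclosed by the curve is positive. -/
def Counterclockwise (X Y : ℝ → ℝ) (L : ℝ) : Prop :=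
  0 < ∫ t in (0:ℝ)..L, (X t * deriv Y t - Y t * deriv X t) / 2

/-- The rear track `γ = Γ + ℓ r`, `r = (cos θ, sin θ)`. -/
noncomputable def rear (X Y : ℝ → ℝ) (ℓ : ℝ) (θ : ℝ → ℝ) (t : ℝ) : ℝ × ℝ :=
  (X t + ℓ * cos (θ t), Y t + ℓ * sin (θ t))

/-- The no-skid condition `ℓ θ' = X' sin θ - Y' cos θ`. -/
def NoSkid (X Y : ℝ → ℝ) (ℓ : ℝ) (θ : ℝ → ℝ) : Prop :=
  Differentiable ℝ θ ∧ ∀ t, ℓ * deriv θ t = deriv X t * sin (θ t) - deriv Y t * cos (θ t)

/-- Every closed rear track of a counterclockwise simple strictly convex closed front track has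
rotation number one, for every length `ℓ > 0`. -/
theorem result {X Y : ℝ → ℝ} {L : ℝ} (hΓ : ConvexFront X Y L) (hccw : Counterclockwise X Y L)
    {ℓ : ℝ} (hℓ : 0 < ℓ) {θ : ℝ → ℝ} (hθ : NoSkid X Y ℓ θ)
    (hclosed : rear X Y ℓ θ L = rear X Y ℓ θ 0) :
    (θ L - θ 0) / (2 * π) = 1 := by
  have hpi := Real.pi_pos
  have hT : X147.Bike.ConvexTrack X Y L :=
    ⟨hΓ.period_pos, hΓ.smooth_X, hΓ.smooth_Y, hΓ.periodic_X, hΓ.periodic_Y, hΓ.regular,
      hΓ.simple, hΓ.convex⟩
  have harea : 0 < ∫ t in (0:ℝ)..L, (X t * deriv Y t - Y t * deriv X t) := by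
    have h1 := hccw
    unfold Counterclockwise at h1
    rw [intervalIntegral.integral_div] at h1
    linarith
  obtain ⟨φ, v, k, hφd, hkc, hφm, hφT, hvc, hv0, hvT, hX, hY⟩ := hT.angle (hT.left_of_area harea)
  have hφc : Continuous φ := continuous_iff_continuousAt.2 fun t => (hφd t).continuousAt
  obtain ⟨hθd, hθe⟩ := hθ
  have hψ : ∀ t, HasDerivAt (fun t => θ t + π)
      (1 / ℓ * v t * sin (φ t - (θ t + π))) t := by
    intro t
    have h1 : HasDerivAt θ (deriv θ t) t := (hθd t).hasDerivAt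
    have h2 := h1.add_const π
    refine h2.congr_deriv ?_
    have h3 := hθe t
    rw [(hX t).deriv, (hY t).deriv] at h3
    have e : φ t - (θ t + π) = (φ t - θ t) - π := by ring
    rw [e, Real.sin_sub_pi, Real.sin_sub]
    have hℓ' := hℓ.ne'
    field_simp
    linear_combination h3
  have hc : cos (θ L + π) = cos (θ 0 + π) := by
    have h1 := congrArg Prod.fst hclosed
    have h2 := hΓ.periodic_X 0
    rw [zero_add] at h2
    simp only [rear, h2] at h1
    have h3 : cos (θ L) = cos (θ 0) := by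
      have : ℓ * cos (θ L) = ℓ * cos (θ 0) := by linarith
      exact mul_left_cancel₀ hℓ.ne' this
    rw [Real.cos_add_pi, Real.cos_add_pi, h3]
  have hs : sin (θ L + π) = sin (θ 0 + π) := by
    have h1 := congrArg Prod.snd hclosed
    have h2 := hΓ.periodic_Y 0
    rw [zero_add] at h2
    simp only [rear, h2] at h1
    have h3 : sin (θ L) = sin (θ 0) := by
      have : ℓ * sin (θ L) = ℓ * sin (θ 0) := by linarith
      exact mul_left_cancel₀ hℓ.ne' this
    rw [Real.sin_add_pi, Real.sin_add_pi, h3]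
  obtain ⟨n, hn⟩ := X147.Bike.eq_add_int hc hs
  have hq := X147.Bike.quasi_of_closed hφc hφT hvc hvT hψ (n := n) (by simpa using hn)
  have h1 := X147.Bike.rot_eq_one hT.period_pos (by positivity : (0:ℝ) < 1 / ℓ) hX hY
    hT.periodic_X hT.periodic_Y hφd hφm hφT hvc hv0 hψ hq
  rw [h1] at hn
  have h2 : θ L - θ 0 = 2 * π := by push_cast at hn; linarith
  rw [h2]
  field_simp

end Pool.Agent.Results.MP_b4625f_gt.RotationOne
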